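import Pool.Agent.Helper27.REC.StmtsT2

set_option autoImplicit false

/-!
# Row ATA: integral models of blocks
-/

open scoped Classical
open NumberField Polynomial

namespace REC

open MU

namespace H96

lemma map_subtype_inj {K : Type} [Field K] (A : ValuationSubring K) {a b : Type}
    {x y : Matrix a b A} (h : x.map A.subtype = y.map A.subtype) : x = y := by
  ext i j
  have h1 := congrFun (congrFun h i) j
  exact h1

lemma ata_map {A K : Type} [CommRing A] [Field K] {n m : ℕ} {L : Type} [Field L]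
    [NumberField L] (b : Blo n m L) {G : Type} [Group G] {l : ℕ} [Fact l.Prime]
    (r : G →* Matrix.GeneralLinearGroup (Fin n) ℤ_[l]) (ϑ : ℤ_[l] →+* A) (ι : 𝓞 L →+* A)
    (R : G →* Matrix (Fin m) (Fin m) A) (h : b.AtA r ϑ ι R) (f : A →+* K) :
    b.At r (f.comp ϑ) (f.comp ι) (mapr f R) := by
  refine ⟨?_, fun g => ?_⟩
  · have h1 := h.1.map f
    rw [map_natCast] at h1
    exact h1.ne_zero
  · have h1 := congrArg (fun x => x.map f) (h.2 g)
    simp only [Matrix.map_mul] at h1
    exact h1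

end H96

theorem ATA : ST_ATA := by
  intro F L _ _ _ _ n m b ρ
  refine ⟨fun l _ Ω _ A ϑ ι R h => ⟨H96.ata_map b _ ϑ ι R h _, H96.ata_map b _ ϑ ι R h _⟩, ?_⟩
  intro hS
  refine ⟨b.N, fun l hl hlt Ω _ A ϑ ι hres => ?_⟩
  -- the denominator is a unit
  have hNk : (b.N : IsLocalRing.ResidueField A) ≠ 0 := by
    intro h0
    have hcop : Nat.Coprime l b.N := by
      rw [Nat.Prime.coprime_iff_not_dvd hl.out]
      intro hd
      exact absurd (Nat.le_of_dvd b.pos hd) (not_le.mpr hlt)
    have h1 : ((l : ℤ) * Nat.gcdA l b.N + (b.N : ℤ) * Nat.gcdB l b.N) = 1 := by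
      rw [← Nat.gcd_eq_gcd_ab, hcop.gcd_eq_one, Nat.cast_one]
    have h2 := congrArg (fun z : ℤ => (z : IsLocalRing.ResidueField A)) h1
    simp only [Int.cast_add, Int.cast_mul, Int.cast_natCast, hres, h0, zero_mul, add_zero,
      Int.cast_one] at h2
    exact zero_ne_one h2
  have hNA : IsUnit (b.N : A) := by
    rw [← IsLocalRing.residue_ne_zero_iff_isUnit, map_natCast]
    exact hNk
  have hN0 : (b.N : Ω) ≠ 0 := by
    have h1 := hNA.map A.subtype
    rw [map_natCast] at h1
    exact h1.ne_zero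
  obtain ⟨R, hR⟩ := hS l Ω (A.subtype.comp ϑ) (A.subtype.comp ι) hN0
  obtain ⟨u, hu⟩ := hNA
  have hPQ : b.P.map ι * b.Q.map ι = (b.N : A) • (1 : Matrix (Fin m) (Fin m) A) := by
    rw [← Matrix.map_mul, b.PQ, Matrix.map_smul' _ _ _ (map_mul _), map_natCast,
      Matrix.map_one _ (map_zero _) (map_one _)]
  let M : Gal F → Matrix (Fin m) (Fin m) A := fun g =>
    ((u⁻¹ : Aˣ) : A) • (b.P.map ι * (ρ l g : Matrix (Fin n) (Fin n) ℤ_[l]).map ϑ * b.Q.map ι)
  have hM : ∀ g, (M g).map A.subtype = R g := by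
    intro g
    have h1 := hR.2 g
    have h2 : (b.P.map ι).map A.subtype *
        ((ρ l g : Matrix (Fin n) (Fin n) ℤ_[l]).map ϑ).map A.subtype =
        R g * (b.P.map ι).map A.subtype := h1
    have h3 : (M g).map A.subtype = A.subtype ((u⁻¹ : Aˣ) : A) •
        ((b.P.map ι).map A.subtype *
          ((ρ l g : Matrix (Fin n) (Fin n) ℤ_[l]).map ϑ).map A.subtype *
          (b.Q.map ι).map A.subtype) := by
      show (((u⁻¹ : Aˣ) : A) • (b.P.map ι * (ρ l g : Matrix (Fin n) (Fin n) ℤ_[l]).map ϑ *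
        b.Q.map ι)).map A.subtype = _
      rw [Matrix.map_smul' _ _ _ (map_mul _), Matrix.map_mul, Matrix.map_mul]
    have h4 : (b.P.map ι).map A.subtype * (b.Q.map ι).map A.subtype =
        A.subtype (u : A) • (1 : Matrix (Fin m) (Fin m) Ω) := by
      rw [← Matrix.map_mul, hPQ, hu, Matrix.map_smul' _ _ _ (map_mul _),
        Matrix.map_one _ (map_zero _) (map_one _)]
    have h5 : A.subtype ((u⁻¹ : Aˣ) : A) * A.subtype (u : A) = 1 := by
      rw [← map_mul, Units.inv_mul, map_one]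
    rw [h3, h2, Matrix.mul_assoc, h4, Matrix.mul_smul, Matrix.mul_one, smul_smul, h5, one_smul]
  refine ⟨{ toFun := M, map_one' := ?_, map_mul' := ?_ }, ⟨u, hu⟩, fun g => ?_⟩
  · apply H96.map_subtype_inj
    rw [hM, map_one, Matrix.map_one _ (map_zero _) (map_one _)]
  · intro g h
    apply H96.map_subtype_inj
    rw [hM, map_mul, Matrix.map_mul, hM, hM]
  · apply H96.map_subtype_inj
    show _ = (M g * b.P.map ι).map A.subtype
    rw [Matrix.map_mul, Matrix.map_mul, hM]
    exact hR.2 g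

end REC
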